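import Pool.Agent.Helper65.JL.Stmts

/-! MP_5c2ead_an, project JL, row CNT -/

open Set Filter Topology Pool.Agent.Helper86.TK

namespace Pool.Agent.Helper65.JLF

open Pool.Agent.Helper65.JL

theorem cnt_len (x : ℕ → Bool) (n : ℕ) : (nd x n).length = n := by
  simp [nd]

theorem cnt_chi_mem {A : Set T} {t : T} (h : t ∈ A) : chi A t = 1 := by
  simp [chi, h]

theorem cnt_chi_not {A : Set T} {t : T} (h : t ∉ A) : chi A t = 0 := by
  simp [chi, h]

theorem st_CNT : ST_CNT := by
  intro Q hQ
  by_contra hcon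
  push Not at hcon
  have hall : ∀ n, seg n ∈ Q := by
    intro n
    obtain ⟨N, hN, hlt⟩ := hcon n
    exact hN n hlt.le
  obtain ⟨hc, hnull, -⟩ := hQ
  obtain ⟨s, hs⟩ : ∃ s : T → ℝ, s = chi {t | ∃ j, t = nd (fun _ => true) j} := ⟨_, rfl⟩
  have hlim : Tendsto seg atTop (𝓝 s) := by
    rw [tendsto_pi_nhds]
    intro t
    refine tendsto_const_nhds.congr' ?_
    filter_upwards [eventually_ge_atTop t.length] with n hn
    rw [hs]
    by_cases h : ∃ j, t = nd (fun _ => true) j
    · obtain ⟨j, hj⟩ := h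
      have hjl : t.length = j := by rw [hj]; exact cnt_len _ _
      have h1 : t ∈ {t : T | ∃ j, t = nd (fun _ => true) j} := ⟨j, hj⟩
      have h2 : t ∈ {t : T | ∃ j ≤ n, t = nd (fun _ => true) j} := ⟨j, by omega, hj⟩
      rw [cnt_chi_mem h1]
      exact (cnt_chi_mem h2).symm
    · have h1 : t ∉ {t : T | ∃ j, t = nd (fun _ => true) j} := h
      have h2 : t ∉ {t : T | ∃ j ≤ n, t = nd (fun _ => true) j} := by
        rintro ⟨j, -, hj⟩
        exact h ⟨j, hj⟩
      rw [cnt_chi_not h1]
      exact (cnt_chi_not h2).symm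
  have hsQ : s ∈ Q := hc.isClosed.mem_of_tendsto hlim (Eventually.of_forall hall)
  have h0 : Tendsto s cofinite (𝓝 0) := hnull s hsQ
  have hfin : {t | ¬ s t < 1}.Finite := by
    have h1 := h0.eventually (Iio_mem_nhds (zero_lt_one' ℝ))
    exact eventually_cofinite.1 h1
  have hinj : Function.Injective (nd (fun _ => true)) := by
    intro a b hab
    have h1 := congrArg List.length hab
    rwa [cnt_len, cnt_len] at h1
  refine Set.infinite_of_injective_forall_mem hinj (fun n => ?_) hfin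
  show ¬ s (nd (fun _ => true) n) < 1
  have h1 : nd (fun _ => true) n ∈ {t : T | ∃ j, t = nd (fun _ => true) j} := ⟨n, rfl⟩
  rw [hs, cnt_chi_mem h1]
  exact lt_irrefl _

end Pool.Agent.Helper65.JLF
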