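import Pool.Agent.Helper65.JL.Stmts

open Set Filter Topology Pool.Agent.Helper86.TK

namespace Pool.Agent.Helper65.JLF

open Pool.Agent.Helper65.JL

noncomputable section

section
variable {X : Type} [NormedAddCommGroup X] [NormedSpace ℝ X]

theorem map_union {K L : Set X} (hK : WCpt K) (hL : WCpt L) : WCpt (K ∪ L) := by
  unfold WCpt at *
  rw [image_union]
  exact hK.union hL

theorem map_singleton (x : X) : WCpt ({x} : Set X) := by
  unfold WCpt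
  simp

theorem map_biUnion {ι : Type} {s : Set ι} (hs : s.Finite) {K : ι → Set X}
    (h : ∀ i ∈ s, WCpt (K i)) : WCpt (⋃ i ∈ s, K i) := by
  unfold WCpt at *
  rw [image_iUnion₂]
  exact hs.isCompact_biUnion h

theorem map_smul {K : Set X} (hK : WCpt K) (c : ℝ) : WCpt ((fun x => c • x) '' K) := by
  unfold WCpt at *
  have h1 : (toWeakSpace ℝ X) '' ((fun x => c • x) '' K) =
      (fun y => c • y) '' ((toWeakSpace ℝ X) '' K) := by
    rw [← image_comp, ← image_comp]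
    refine image_congr fun x _ => ?_
    simp
  rw [h1]
  exact hK.image (continuous_const_smul c)

end

theorem map_bdd {X : Type} [NormedAddCommGroup X] [NormedSpace ℝ X] {K : Set X} (hK : WCpt K) :
    ∃ N : ℕ, 1 ≤ N ∧ ∀ x ∈ K, ‖x‖ ≤ N := by
  have h1 : ∀ f : X →L[ℝ] ℝ, ∃ C, ∀ x : K,
      ‖(NormedSpace.inclusionInDoubleDual ℝ X (x : X)) f‖ ≤ C := by
    intro f
    have hf : Continuous (fun y : WeakSpace ℝ X => f ((toWeakSpace ℝ X).symm y)) :=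
      WeakBilin.eval_continuous (topDualPairing ℝ X).flip f
    obtain ⟨C, hC⟩ := (IsCompact.image_of_continuousOn hK hf.continuousOn).isBounded.exists_norm_le
    refine ⟨C, fun x => ?_⟩
    have := hC (f x) ⟨toWeakSpace ℝ X x, ⟨x, x.2, rfl⟩, by simp⟩
    simpa using this
  obtain ⟨C, hC⟩ := banach_steinhaus
    (g := fun x : K => NormedSpace.inclusionInDoubleDual ℝ X (x : X)) h1
  refine ⟨⌈C⌉₊ + 1, by omega, fun x hx => ?_⟩
  have h2 := hC ⟨x, hx⟩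
  have h3 : ‖NormedSpace.inclusionInDoubleDual ℝ X x‖ = ‖x‖ :=
    (NormedSpace.inclusionInDoubleDualLi ℝ (E := X)).norm_map x
  have h4 := Nat.le_ceil C
  push_cast
  have h5 : ‖NormedSpace.inclusionInDoubleDual ℝ X x‖ ≤ C := h2
  rw [h3] at h5
  linarith

theorem map_normU {Γ : Type} (r : Γ → ℕ → Bool) (η : Γ → ℝ) (hP : Par r η) (x : Γ) :
    ‖UX r η x‖ ≤ 1 := by
  classical
  change ‖U r η x‖ ≤ 1
  unfold U
  rw [Prod.norm_def]
  refine max_le ?_ ?_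
  · simp only
    rw [lp.norm_single (by norm_num)]
    simp
  · refine lp.norm_le_of_forall_le zero_le_one fun t => ?_
    change ‖η x * ind (r x) 0 t‖ ≤ 1
    rw [norm_mul, Real.norm_eq_abs, Real.norm_eq_abs, abs_of_pos (hP.2 x).1]
    have h1 : |ind (r x) 0 t| ≤ 1 := by
      unfold ind
      split_ifs <;> simp
    calc η x * |ind (r x) 0 t| ≤ 1 * 1 :=
          mul_le_mul (hP.2 x).2 h1 (abs_nonneg _) zero_le_one
      _ = 1 := one_mul 1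

/-- data chosen for a weakly compact set K -/
structure MapData {Γ : Type} (r : Γ → ℕ → Bool) (η : Γ → ℝ) (D : Set (Set Γ))
    (K : Set (XX r η)) where
  N : ℕ
  hN : 1 ≤ N
  hK : ∀ x ∈ K, ‖x‖ ≤ N
  d : D
  hd : ∀ p ∈ K, ∀ x, x ∉ d.1 → p.1.1 x = 0

theorem map_data (hSU : ST_SUPP) {Γ : Type} (r : Γ → ℕ → Bool) (η : Γ → ℝ) (hP : Par r η)
    (D : Set (Set Γ)) (hD : ∀ H : Set Γ, H.Countable → ∃ d ∈ D, H ⊆ d) (K : Set (XX r η))
    (hK : WCpt K) : Nonempty (MapData r η D K) := by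
  obtain ⟨N, hN, hKN⟩ := map_bdd hK
  obtain ⟨G, hG, hGK⟩ := hSU Γ r η hP K hK
  obtain ⟨d, hd, hGd⟩ := hD G hG
  exact ⟨⟨N, hN, hKN, ⟨d, hd⟩, fun p hp x hx => hGK p hp x fun h => hx (hGd h)⟩⟩

/-- K scaled into the ball -/
def Ks {Γ : Type} {r : Γ → ℕ → Bool} {η : Γ → ℝ} {D : Set (Set Γ)} {K : Set (XX r η)}
    (m : MapData r η D K) : Set (XX r η) := (fun x => (m.N : ℝ)⁻¹ • x) '' K

theorem st_MAP (hSU : ST_SUPP) (hSE : ST_SEP) (hSL : ST_SL) (hPW : ST_PSW) (hPE : ST_PSE)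
    (hMI : ST_MIX) (hRC : ST_RCV) (hFI : ST_FIN) (hBN : ST_BND) (hCN : ST_CNT) (hSG : ST_SEG)
    (hCC : ST_CCM) (hBI : ST_BIG) (hLF : ST_LFT) : ST_MAP := by
  classical
  rintro Γ r η hP ⟨D, θ, ι, hDc, hDcof, hθ, hι, hιθ⟩
  choose f hf using fun d : D => hSE Γ r hP.1 d.1 (hDc d.1 d.2)
  let md : ∀ K : WC (XX r η) univ, MapData r η D K.1 := fun K =>
    (map_data hSU r η hP D hDcof K.1 K.2.2).some
  have hKs : ∀ K : WC (XX r η) univ, WCpt (Ks (md K)) := fun K => map_smul K.2.2 _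
  have hKs1 : ∀ K : WC (XX r η) univ, ∀ p ∈ Ks (md K), ‖p‖ ≤ 1 := by
    rintro K _ ⟨x, hx, rfl⟩
    have h1 : (0 : ℝ) < (md K).N := by exact_mod_cast (md K).hN
    simp only
    rw [norm_smul, norm_inv, Real.norm_of_nonneg h1.le, inv_mul_le_iff₀ h1, mul_one]
    exact (md K).hK x hx
  have hKs2 : ∀ K : WC (XX r η) univ, ∀ p ∈ Ks (md K), ∀ x, x ∉ (md K).d.1 → p.1.1 x = 0 := by
    rintro K _ ⟨p, hp, rfl⟩ x hx
    change ((md K).N : ℝ)⁻¹ * p.1.1 x = 0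
    rw [(md K).hd p hp x hx, mul_zero]
  let hh : ℝ → ℕ → ℝ := fun ε N => min (ε / N) 1
  let CK : WC (XX r η) univ → Set (T → ℝ) := fun K => cp r η (md K).d.1 (f (md K).d) '' Ks (md K)
  have hCK := fun K : WC (XX r η) univ =>
    hCC Γ r η hP (md K).d.1 (f (md K).d) (hf (md K).d) _ (hKs K) (hKs1 K) (hKs2 K)
  let FK : ℝ → WC (XX r η) univ → Set (XX r η) := fun ε K =>
    ({UX r η (ι (md K).d)} ∪ PS r η (Sl (CK K) (hh ε (md K).N))) ∪
      PS r η (seg '' {n | n ≤ (md K).N})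
  have hhpos : ∀ ε > (0 : ℝ), ∀ N : ℕ, 1 ≤ N → 0 < hh ε N := fun ε hε N hN => by
    have : (0 : ℝ) < N := by exact_mod_cast hN
    exact lt_min (by positivity) one_pos
  have hSlF : ∀ ε > (0 : ℝ), ∀ K, FF (Sl (CK K) (hh ε (md K).N)) := fun ε hε K =>
    hSL _ (hCK K).1 (hCK K).2.1 _ (hhpos ε hε _ (md K).hN)
  have hFKw : ∀ ε > (0 : ℝ), ∀ K, WCpt (FK ε K) := fun ε hε K =>
    map_union (map_union (map_singleton _) (hPW Γ r η hP _ (hSlF ε hε K)).1)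
      (hPW Γ r η hP _ (hSG _)).1
  have hFK1 : ∀ ε > (0 : ℝ), ∀ K, FK ε K ⊆ {x | ‖x‖ ≤ 1} := by
    rintro ε hε K x ((hx | hx) | hx)
    · rw [mem_singleton_iff.1 hx]
      exact map_normU r η hP _
    · exact (hPW Γ r η hP _ (hSlF ε hε K)).2 x hx
    · exact (hPW Γ r η hP _ (hSG _)).2 x hx
  refine ⟨fun ε K => if h : 0 < ε then ⟨FK ε K, hFK1 ε h K, hFKw ε h K⟩ else
    ⟨∅, empty_subset _, by simp⟩, ?_⟩
  intro ε hε
  refine ⟨min (θ / 4) (1 / 4), lt_min (by positivity) (by norm_num), ?_⟩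
  intro L
  have hLw : WCpt L.1 := L.2.2
  have hQ := hBN Γ r η hP L.1 hLw
  set Q := QL r η L.1 with hQdef
  obtain ⟨N₀, hN₀⟩ := hCN Q hQ
  have hfin := hFI Γ r η hP θ hθ L.1 hLw
  have hfinD : {d : D | ι d ∈ {x : Γ | θ ≤ η x ∧ ∃ l ∈ L.1, ‖UX r η x - l‖ ≤ θ / 4}}.Finite :=
    hfin.preimage hι.injOn
  set FD := {d : D | ι d ∈ {x : Γ | θ ≤ η x ∧ ∃ l ∈ L.1, ‖UX r η x - l‖ ≤ θ / 4}} with hFD
  let mm : ℕ → ℕ := fun N => ⌈2 / hh ε N⌉₊
  let MM : ℕ → D → Set (XX r η) := fun N d =>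
    (fun x => (N : ℝ) • x) '' Big r η d.1 (f d) (Mix Q (mm N) (hh ε N) ∩ {c | ∀ t, |c t| ≤ 3})
  have hMM : ∀ N d, WCpt (MM N d) := by
    intro N d
    refine map_smul (hBI Γ r η hP d.1 (f d) (hf d) _ ?_ ?_ ?_) _
    · refine (hMI Q hQ _ _).1.inter_right ?_
      have : {c : T → ℝ | ∀ t, |c t| ≤ 3} = ⋂ t, {c : T → ℝ | |c t| ≤ 3} := by
        ext c
        simp
      rw [this]
      exact isClosed_iInter fun t => isClosed_le ((continuous_apply t).abs) continuous_const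
    · exact fun c hc => (hMI Q hQ _ _).2 c hc.1
    · exact fun c hc => hc.2
  have hfinN : {N : ℕ | N ≤ N₀}.Finite := Set.finite_le_nat N₀
  refine ⟨⟨⋃ N ∈ {N : ℕ | N ≤ N₀}, ⋃ d ∈ FD, MM N d, subset_univ _,
    map_biUnion hfinN fun N _ => map_biUnion hfinD fun d _ => hMM N d⟩, ?_⟩
  intro K hK
  simp only [dif_pos hε] at hK
  have hK' : ∀ x ∈ FK ε K, ∃ y ∈ L.1, ‖x - y‖ ≤ min (θ / 4) (1 / 4) := hK
  -- the set d
  have hd : (md K).d ∈ FD := by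
    obtain ⟨l, hl, h⟩ := hK' (UX r η (ι (md K).d)) (Or.inl (Or.inl rfl))
    exact ⟨hιθ _, l, hl, h.trans (min_le_left _ _)⟩
  -- indicator functions
  have hQmem : ∀ c : T → ℝ, ∀ C : Set (T → ℝ), FF C → c ∈ C → (∀ q ∈ PS r η C, q ∈ FK ε K) →
      c ∈ Q := by
    intro c C hC hc hsub
    obtain ⟨q, hq1, hq2⟩ := hPE Γ r η hP c (hC.2.1 c hc) (hC.2.2 c hc)
    have hqC : q ∈ PS r η C := ⟨hq1, by rw [hq2]; exact hc⟩
    obtain ⟨l, hl, h⟩ := hK' q (hsub q hqC)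
    exact subset_closure ⟨hC.2.2 c hc, q, hq1, hq2, l, hl, h.trans (min_le_right _ _)⟩
  have hN : (md K).N ≤ N₀ := by
    refine hN₀ _ fun n hn => ?_
    exact hQmem (seg n) _ (hSG _) ⟨n, hn, rfl⟩ fun q hq => Or.inr hq
  have hNpos : (0 : ℝ) < (md K).N := by exact_mod_cast (md K).hN
  intro x hx
  set p : XX r η := ((md K).N : ℝ)⁻¹ • x with hp
  have hpK : p ∈ Ks (md K) := ⟨x, hx, rfl⟩
  have hc2 := (hCK K).2.2 _ ⟨p, hpK, rfl⟩
  have hhp := hhpos ε hε _ (md K).hN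
  obtain ⟨c', hc', hcc⟩ := hRC Q (cp r η (md K).d.1 (f (md K).d) p) (mm (md K).N)
    (hh ε (md K).N) hhp (by
      have := Nat.le_ceil (2 / hh ε (md K).N)
      rw [div_le_iff₀ hhp] at this
      exact this) hc2 (by
      intro i hi
      constructor
      · exact hQmem _ _ (hSlF ε hε K)
          (subset_closure ⟨_, ⟨p, hpK, rfl⟩, i, hi, Or.inl rfl⟩) fun q hq => Or.inl (Or.inr hq)
      · exact hQmem _ _ (hSlF ε hε K)
          (subset_closure ⟨_, ⟨p, hpK, rfl⟩, i, hi, Or.inr rfl⟩) fun q hq => Or.inl (Or.inr hq))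
  obtain ⟨q, hq, hpq⟩ := hLF Γ r η hP (md K).d.1 (f (md K).d) (hf (md K).d) p (hKs1 K p hpK)
    (hKs2 K p hpK) c' (hh ε (md K).N) ((hMI Q hQ _ _).2 c' hc') (fun t => (hcc t).2)
    (fun t => (hcc t).1) hhp.le (Mix Q (mm (md K).N) (hh ε (md K).N) ∩ {c | ∀ t, |c t| ≤ 3})
    ⟨hc', fun t => (hcc t).2.trans (by norm_num)⟩
  refine ⟨((md K).N : ℝ) • q, ?_, ?_⟩
  · simp only [mem_iUnion]
    exact ⟨(md K).N, hN, (md K).d, hd, q, hq, rfl⟩
  · have h1 : x - ((md K).N : ℝ) • q = ((md K).N : ℝ) • (p - q) := by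
      rw [smul_sub, hp, smul_smul, mul_inv_cancel₀ hNpos.ne', one_smul]
    rw [h1, norm_smul, Real.norm_of_nonneg hNpos.le]
    have h2 : ‖p - q‖ ≤ ε / (md K).N := hpq.trans (min_le_left _ _)
    calc ((md K).N : ℝ) * ‖p - q‖ ≤ (md K).N * (ε / (md K).N) :=
          mul_le_mul_of_nonneg_left h2 hNpos.le
      _ = ε := by field_simp

end

end Pool.Agent.Helper65.JLF
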