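import Pool.Agent.Helper65.JL.Stmts
import Pool.Agent.Helper86.TK.Main

/-! NEG: the text of fin_B (helper86), for the space XX r η itself. -/

open Set Filter Topology Pool.Agent.Helper86.TK

namespace Pool.Agent.Helper65.JLF

open Pool.Agent.Helper65.JL

noncomputable section

theorem card_GB : Cardinal.mk GB ≤ Cardinal.aleph Ordinal.omega0 := by
  rw [Cardinal.mk_sigma]
  refine (Cardinal.sum_le_mk_mul_iSup _).trans ?_
  refine Cardinal.mul_le_of_le (Cardinal.aleph0_le_aleph _) ?_ ?_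
  · rw [Cardinal.mk_nat]; exact Cardinal.aleph0_le_aleph _
  · refine ciSup_le' fun k => ?_
    rw [Cardinal.mk_out, Cardinal.aleph_le_aleph]
    exact (Ordinal.nat_lt_omega0 _).le

theorem neg (hc : Cardinal.aleph.{0} Ordinal.omega0 ≤ Cardinal.continuum) :
    ∃ (Γ : Type) (r : Γ → ℕ → Bool) (η : Γ → ℝ), Par r η ∧ Nonempty Γ ∧
      Cardinal.mk Γ ≤ Cardinal.aleph Ordinal.omega0 ∧
      ¬ Tuk (AKr (XX r η) univ) (AKr (XX r η) {x | ‖x‖ ≤ 1}) := by
  obtain ⟨r⟩ : Nonempty (GB ↪ (ℕ → Bool)) := fin_cardG hc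
  let η : GB → ℝ := fun x => (1 / 2 : ℝ) ^ x.1
  have hP : Par (r : GB → ℕ → Bool) η :=
    ⟨r.injective, fun x => ⟨by positivity, pow_le_one₀ (by norm_num) (by norm_num)⟩⟩
  have hinf : Infinite {x : GB // x.1 = 0} := by
    rw [Cardinal.infinite_iff, fin_cardeq]
    exact Cardinal.aleph0_le_aleph _
  refine ⟨GB, (r : GB → ℕ → Bool), η, hP, ⟨(Infinite.natEmbedding {x : GB // x.1 = 0} 0).1⟩,
    card_GB, ?_⟩
  rintro ⟨f, hf⟩
  obtain ⟨δ, hδ, hfδ⟩ := hf 1 one_pos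
  have hball : {x : XX (r : GB → ℕ → Bool) η | ‖x‖ ≤ 1} = Metric.closedBall 0 1 := by
    ext x
    simp
  let g : KW (XX (r : GB → ℕ → Bool) η) univ →
      KW (XX (r : GB → ℕ → Bool) η) (Metric.closedBall 0 1) := fun K =>
    ⟨(f 1 K).1, hball ▸ (f 1 K).2.1, (f 1 K).2.2⟩
  have hg : ∀ L : KW (XX (r : GB → ℕ → Bool) η) (Metric.closedBall 0 1),
      ∃ M : KW (XX (r : GB → ℕ → Bool) η) univ, ∀ K, LEt δ (g K) L → LEt 1 K M := fun L => by
    obtain ⟨M, hM⟩ := hfδ ⟨L.1, hball.symm ▸ L.2.1, L.2.2⟩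
    exact ⟨M, fun K hK => hM K hK⟩
  obtain ⟨k, hk⟩ := exists_pow_lt_of_lt_one (show (0 : ℝ) < δ / 4 by positivity)
    (show (1 / 2 : ℝ) < 1 by norm_num)
  set θ : ℝ := (1 / 2 : ℝ) ^ k with hθ
  have hθ0 : 0 < θ := by positivity
  have hθ1 : θ ≤ 1 := pow_le_one₀ (by norm_num) (by norm_num)
  have hsupp : ∀ x : GB, ∃ G : Set GB, G.Countable ∧
      ∀ p ∈ (g (fin_pt ((4 / θ) • UX (r : GB → ℕ → Bool) η x))).1, ∀ y, y ∉ G → p.1.1 y = 0 :=
    fun x => main_SUPP GB _ η hP _ (g (fin_pt ((4 / θ) • UX (r : GB → ℕ → Bool) η x))).2.2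
  choose G hGc hGs using hsupp
  obtain ⟨d, hd, hdJ⟩ := main_PIG k {x : GB // x.1 < k} {x : GB // x.1 = k} (fin_cardlt k)
    (fin_cardeq k) (fun j => {y | y.1 ∈ G j.1})
    (fun j => (hGc j.1).preimage Subtype.val_injective)
  refine fin_core main_FINE main_COARSE (r : GB → ℕ → Bool) η hP θ δ hθ0 hθ1 (by linarith) g hg
    (Subtype.val '' {j : {x : GB // x.1 = k} | {y : {x : GB // x.1 < k} | y.1 ∈ G j.1} ⊆ d}) ?_ ?_
    (Subtype.val '' d) (hd.image _) ?_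
  · intro h
    exact hdJ (Set.countable_of_injective_of_countable_image Subtype.val_injective.injOn h)
  · rintro _ ⟨j, -, rfl⟩
    simp only [η]
    rw [j.2]
  · rintro _ ⟨j, hj, rfl⟩ p hp y hy hpy
    have hyG : y ∈ G j.1 := by
      by_contra hcon
      exact hpy (hGs j.1 p hp y hcon)
    by_cases hyk : y.1 < k
    · exact absurd ⟨⟨y, hyk⟩, hj hyG, rfl⟩ hy
    · simp only [η, θ]
      exact pow_le_pow_of_le_one (by norm_num) (by norm_num) (not_lt.mp hyk)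

end

end Pool.Agent.Helper65.JLF
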