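import Pool.Agent.Helper65.JL.Stmts

open Set Filter Topology Pool.Agent.Helper86.TK

namespace Pool.Agent.Helper65.JLF

open Pool.Agent.Helper65.JL

noncomputable section

theorem ps_SS {Γ : Type} (r : Γ → ℕ → Bool) (η : Γ → ℝ) (f g : Γ → ℕ) (a : Γ → ℝ) (t : T) :
    SS r η ∅ ∅ f g a t = 0 := by
  unfold SS S
  simp

theorem ps_sep {Γ : Type} (r : Γ → ℕ → Bool) (f : Γ → ℕ) : Sep r ∅ f := by
  intro x hx
  exact absurd hx (Set.notMem_empty x)

theorem st_PSE (hI : ST_INX) : ST_PSE := by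
  intro Γ r η hP c hc hc01
  have hm : Memℓp c ⊤ := by
    refine memℓp_infty ⟨1, ?_⟩
    rintro _ ⟨t, rfl⟩
    rcases hc01 t with h | h <;> simp [h]
  have h1 := hI Γ r η hP ∅ ∅ (fun _ => 0) (fun _ => 0) (by simp) (ps_sep r _) (ps_sep r _)
    (0 : E2 Γ) (⟨c, hm⟩ : Ei) (fun x _ => rfl) (by
      have : (fun t => (⟨c, hm⟩ : Ei) t - SS r η ∅ ∅ (fun _ => 0) (fun _ => 0) (0 : E2 Γ) t) = c := by
        funext t
        rw [ps_SS, sub_zero]
      rw [this]
      exact hc)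
  exact ⟨⟨_, h1⟩, rfl, rfl⟩

theorem st_PSW (hW : ST_WK) : ST_PSW := by
  intro Γ r η hP C hC
  have hb : ∀ c ∈ C, ∀ t, |c t| ≤ 1 := by
    intro c hc t
    rcases hC.2.2 c hc t with h | h <;> simp [h]
  have hn : ∀ q ∈ PS r η C, ‖q‖ ≤ 1 := by
    rintro q ⟨hq1, hq2⟩
    change ‖q.1‖ ≤ 1
    rw [Prod.norm_def, hq1, norm_zero]
    refine max_le zero_le_one (lp.norm_le_of_forall_le zero_le_one fun t => ?_)
    exact hb _ hq2 t
  refine ⟨?_, hn⟩
  have h1 := hW Γ r η hP ∅ ∅ (fun _ => 0) (fun _ => 0) (by simp) (ps_sep r _) (ps_sep r _) C hC.1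
    hC.2.1 (fun c hc t => (hb c hc t).trans (by norm_num)) 1 le_rfl
  convert h1 using 1
  ext q
  constructor
  · intro hq
    refine ⟨fun x _ => ?_, ?_, hn q hq, ?_⟩
    · rw [hq.1]
      rfl
    · rw [hq.1, norm_zero]
      exact zero_le_one
    · simp only [ps_SS, sub_zero]
      exact hq.2
  · rintro ⟨h2, -, -, h3⟩
    refine ⟨?_, ?_⟩
    · ext x
      exact h2 x (by simp)
    · simpa only [ps_SS, sub_zero] using h3

theorem st_BIG (hW : ST_WK) : ST_BIG := by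
  intro Γ r η hP d f hf C hC hC1 hC2
  have h1 := hW Γ r η hP d ∅ f f (by simp) hf (ps_sep r _) C hC hC1 hC2 4 (by norm_num)
  convert h1 using 1
  ext q
  simp only [Big, union_empty]
  rfl

theorem lft_SS {Γ : Type} (r : Γ → ℕ → Bool) (η : Γ → ℝ) (hP : Par r η) (hS : ST_SVAL) (d : Set Γ)
    (f : Γ → ℕ) (hf : Sep r d f) (a : E2 Γ) (ha : ‖a‖ ≤ 1) (t : T) : |SS r η d ∅ f f a t| ≤ 1 := by
  have h0 : S r η ∅ f a t = 0 := by
    unfold S
    simp
  unfold SS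
  rw [h0, add_zero]
  rcases hS Γ r η d f hf t with ⟨x, -, -, h⟩ | ⟨-, h⟩
  · rw [h a, abs_mul]
    have h1 : |a x| ≤ 1 := by
      have := lp.norm_apply_le_norm (p := 2) (by norm_num) a x
      rw [Real.norm_eq_abs] at this
      exact this.trans ha
    have h2 : |η x| ≤ 1 := by
      rw [abs_of_pos (hP.2 x).1]
      exact (hP.2 x).2
    calc |a x| * |η x| ≤ 1 * 1 := mul_le_mul h1 h2 (abs_nonneg _) zero_le_one
      _ = 1 := one_mul 1
  · rw [h a, abs_zero]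
    exact zero_le_one

theorem st_LFT (hI : ST_INX) (hS : ST_SVAL) : ST_LFT := by
  intro Γ r η hP d f hf p hp hpd c' h hc' hc2 hcp hh C hC
  have hp1 : ‖p.1.1‖ ≤ 1 := (norm_fst_le p.1).trans hp
  have hSS := lft_SS r η hP hS d f hf p.1.1 hp1
  let b : T → ℝ := fun t => SS r η d ∅ f f p.1.1 t + c' t
  have hb : ∀ t, |b t| ≤ 3 := fun t => by
    have h1 := abs_add_le (SS r η d ∅ f f p.1.1 t) (c' t)
    have h2 := hSS t
    have h3 := hc2 t
    change |SS r η d ∅ f f p.1.1 t + c' t| ≤ 3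
    linarith
  have hm : Memℓp b ⊤ := by
    refine memℓp_infty ⟨3, ?_⟩
    rintro _ ⟨t, rfl⟩
    exact hb t
  have h1 := hI Γ r η hP d ∅ f f (by simp) hf (ps_sep r _) p.1.1 (⟨b, hm⟩ : Ei)
    (fun x hx => hpd x fun h => hx (Or.inl h)) (by
      have : (fun t => (⟨b, hm⟩ : Ei) t - SS r η d ∅ f f p.1.1 t) = c' := by
        funext t
        change SS r η d ∅ f f p.1.1 t + c' t - SS r η d ∅ f f p.1.1 t = c' t
        ring
      rw [this]
      exact hc')
  refine ⟨⟨_, h1⟩, ⟨hpd, hp1, ?_, ?_⟩, ?_⟩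
  · change ‖((p.1.1, (⟨b, hm⟩ : Ei)) : Amb Γ)‖ ≤ 4
    rw [Prod.norm_def]
    refine max_le (hp1.trans (by norm_num)) (lp.norm_le_of_forall_le (by norm_num) fun t => ?_)
    exact (hb t).trans (by norm_num)
  · have : cp r η d f ⟨_, h1⟩ = c' := by
      funext t
      change SS r η d ∅ f f p.1.1 t + c' t - SS r η d ∅ f f p.1.1 t = c' t
      ring
    rw [this]
    exact hC
  · change ‖p.1 - ((p.1.1, (⟨b, hm⟩ : Ei)) : Amb Γ)‖ ≤ h
    rw [Prod.norm_def]
    refine max_le ?_ ?_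
    · simp only [Prod.fst_sub, sub_self, norm_zero]
      exact hh
    · refine lp.norm_le_of_forall_le hh fun t => ?_
      change |p.1.2 t - (SS r η d ∅ f f p.1.1 t + c' t)| ≤ h
      have h2 := hcp t
      unfold cp at h2
      rw [← sub_sub]
      exact h2

end

end Pool.Agent.Helper65.JLF
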