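import Pool.Agent.Helper65.JL.Stmts

open Set Filter Topology Pool.Agent.Helper86.TK

namespace Pool.Agent.Helper65.JLF

open Pool.Agent.Helper65.JL

noncomputable section

theorem st_SEG : ST_SEG := by
  classical
  intro N
  refine ⟨((Set.finite_le_nat N).image _).isCompact, ?_, ?_⟩
  · rintro _ ⟨n, _, rfl⟩
    have hfin : {t : T | ∃ j ≤ n, t = nd (fun _ => true) j}.Finite := by
      refine ((Set.finite_le_nat n).image (nd (fun _ => true))).subset ?_
      rintro t ⟨j, hj, rfl⟩
      exact ⟨j, hj, rfl⟩
    refine tendsto_const_nhds.congr' ?_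
    filter_upwards [hfin.compl_mem_cofinite] with t ht
    exact (Set.indicator_of_notMem ht _).symm
  · rintro _ ⟨n, _, rfl⟩ t
    by_cases h : t ∈ {t : T | ∃ j ≤ n, t = nd (fun _ => true) j}
    · exact Or.inr (Set.indicator_of_mem h _)
    · exact Or.inl (Set.indicator_of_notMem h _)

end

end Pool.Agent.Helper65.JLF
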