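import Pool.Agent.Helper86.TK.Main
import Pool.Agent.Helper65.JLF.MAP
import Pool.Agent.Helper65.JLF.PS
import Pool.Agent.Helper65.JLF.SEG
import Pool.Agent.Helper65.JLF.SL
import Pool.Agent.Helper65.JLF.RCV
import Pool.Agent.Helper65.JLF.CAR
import Pool.Agent.Helper65.JLF.CNT
import Pool.Agent.Helper65.JLF.NEG
import Pool.Agent.Helper1.JL.BND
import Pool.Agent.Helper12.JL.FIN
import Pool.Agent.Helper18.JL.NRF
import Pool.Agent.Helper21.JL.MIX
import Pool.Agent.Helper84.JL.CCM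
import Pool.Agent.Helper4.TU.REV

open Set Filter Topology Pool.Agent.Helper86.TK

namespace Pool.Agent.Helper65.JLF

open Pool.Agent.Helper65.JL

theorem fin_BND : ST_BND := Pool.Agent.Helper1.JL.st_BND Pool.Agent.Helper1.TKM.mem

theorem fin_PSE : ST_PSE := st_PSE main_INX

theorem fin_NRF (Γ : Type) (r : Γ → ℕ → Bool) (η : Γ → ℝ) (h : Par r η) :
    ¬ Function.Surjective (NormedSpace.inclusionInDoubleDual ℝ (XX r η)) :=
  Pool.Agent.Helper18.JL.st_NRF st_NREFL fin_PSE fin_BND st_CNT Γ r η h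

theorem fin_MAP : ST_MAP :=
  st_MAP main_SUPP st_SEP st_SL (st_PSW main_WK) fin_PSE Pool.Agent.Helper21.JL.st_MIX st_RCV
    (Pool.Agent.Helper12.JL.st_FIN main_LIM) fin_BND st_CNT st_SEG
    (Pool.Agent.Helper84.JL.st_CCM st_SVAL main_C0) (st_BIG main_WK) (st_LFT main_INX st_SVAL)

theorem fin_POS (Γ : Type) (r : Γ → ℕ → Bool) (η : Γ → ℝ) (h : Par r η) (hΓ : Nonempty Γ)
    (hc : Cardinal.mk Γ < Cardinal.aleph Ordinal.omega0) :
    Tuk (AKr (XX r η) univ) (AKr (XX r η) {x | ‖x‖ ≤ 1}) :=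
  fin_MAP Γ r η h (car st_COF Γ r η h hΓ hc)

end Pool.Agent.Helper65.JLF
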